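import Pool.Agent.Q278.Sub
import Pool.Agent.Q278.Unit
import Pool.Agent.Q278.SixPhi

set_option autoImplicit false

/-! `S_n(q) ≡ 0 (mod Φ_n(q)²)` for `n ≡ 1 (mod 4)`, `n > 1`. -/

namespace Pool.Agent.Results.MP_b125a4_nt.Full

open Finset Polynomial Q278.Loc Q278.Cyc Q278.Unit

/-- `[m] = 1 + q + ⋯ + q ^ (m - 1)`. -/
noncomputable def qint (m : ℕ) : RatFunc ℚ := ∑ i ∈ range m, RatFunc.X ^ i

/-- `(a; Q)_k`. -/
noncomputable def P (a Q : RatFunc ℚ) (k : ℕ) : RatFunc ℚ := ∏ j ∈ range k, (1 - a * Q ^ j)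

/-- The exponent `e_n(k) = k (n² - 2 n k - n - 2) / 4`. -/
def e (n k : ℕ) : ℤ := (k * (n ^ 2 - 2 * n * k - n - 2)) / 4

/-- The sum `S_n(q)`. -/
noncomputable def S (n : ℕ) : RatFunc ℚ := ∑ k ∈ range ((n - 1) / 2 + 1), qint (4 * k + 1) *
  (P RatFunc.X (RatFunc.X ^ 2) k / P (RatFunc.X ^ 2) (RatFunc.X ^ 2) k) ^ 3 * RatFunc.X ^ (e n k)

/-! ### The values at a root of unity -/

section root

variable {σ : ℂ} {n N c : ℕ}

/-- the factors at `σ` -/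
noncomputable def g (σ : ℂ) (j : ℕ) : ℂ :=
  σ⁻¹ * ((1 - σ ^ (4 * j + 2)) * ((1 - σ ^ (4 * j + 2)) * (1 - σ ^ (4 * j + 2))) /
    ((1 - σ ^ (4 * j + 4)) * ((1 - σ ^ (4 * j + 4)) * (1 - σ ^ (4 * j + 4)))))

theorem not_dvd (hn : n = 2 * N + 1) {j : ℕ} (hj : j < N) : ¬ n ∣ 4 * j + 2 ∧ ¬ n ∣ 4 * j + 4 := by
  have hc2 : Nat.Coprime n 2 := by
    rw [Nat.coprime_two_right]; exact ⟨N, hn⟩
  constructor
  · intro h
    rw [show 4 * j + 2 = 2 * (2 * j + 1) by ring] at h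
    have := Nat.le_of_dvd (by omega) (hc2.dvd_of_dvd_mul_left h)
    omega
  · intro h
    rw [show 4 * j + 4 = 2 * (2 * (j + 1)) by ring] at h
    have := Nat.le_of_dvd (by omega) (hc2.dvd_of_dvd_mul_left (hc2.dvd_of_dvd_mul_left h))
    omega

theorem one_sub_ne' (hσ : IsPrimitiveRoot σ n) {m : ℕ} (h : ¬ n ∣ m) : 1 - σ ^ m ≠ 0 := by
  intro h0
  exact h ((hσ.pow_eq_one_iff_dvd m).1 (sub_eq_zero.1 h0).symm)

theorem gg (hσ : IsPrimitiveRoot σ n) (hn : n = 2 * N + 1) {i : ℕ} (hi : i < N) :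
    g σ (N - 1 - i) * g σ i = (σ ^ 8)⁻¹ := by
  have hσ0 : σ ≠ 0 := hσ.ne_zero (by omega)
  obtain ⟨h1, h2⟩ := not_dvd hn hi
  obtain ⟨h3, h4⟩ := not_dvd hn (show N - 1 - i < N by omega)
  have a1 := one_sub_ne' hσ h1
  have a2 := one_sub_ne' hσ h2
  have a3 := one_sub_ne' hσ h3
  have a4 := one_sub_ne' hσ h4
  have hpow : σ ^ (2 * n) = 1 := by rw [mul_comm, pow_mul, hσ.pow_eq_one, one_pow]
  have e1 : σ ^ (4 * (N - 1 - i) + 2) * σ ^ (4 * i + 4) = 1 := by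
    rw [← pow_add, show 4 * (N - 1 - i) + 2 + (4 * i + 4) = 2 * n by omega, hpow]
  have e2 : σ ^ (4 * (N - 1 - i) + 4) * σ ^ (4 * i + 2) = 1 := by
    rw [← pow_add, show 4 * (N - 1 - i) + 4 + (4 * i + 2) = 2 * n by omega, hpow]
  have e3 : σ ^ (4 * i + 4) = σ ^ (4 * i + 2) * σ ^ 2 := by rw [← pow_add]
  have b0 : σ ^ (4 * i + 2) ≠ 0 := pow_ne_zero _ hσ0
  unfold g
  rw [eq_inv_of_mul_eq_one_left e1] at a3 ⊢
  rw [eq_inv_of_mul_eq_one_left e2] at a4 ⊢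
  rw [e3] at a2 a3 ⊢
  generalize σ ^ (4 * i + 2) = B at *
  have c3 : 1 - (B * σ ^ 2)⁻¹ = -(1 - B * σ ^ 2) * (B * σ ^ 2)⁻¹ := by
    field_simp; ring
  have c4 : 1 - B⁻¹ = -(1 - B) * B⁻¹ := by
    field_simp; ring
  rw [c3, c4]
  generalize 1 - B * σ ^ 2 = u at *
  generalize 1 - B = v at *
  field_simp

theorem rho (hσ : IsPrimitiveRoot σ n) (hn : n = 2 * N + 1) (k : ℕ) (hk : k ≤ N) :
    ∏ j ∈ range (N - k), g σ j =
      (∏ j ∈ range N, g σ j) * σ ^ (8 * k) * ∏ j ∈ range k, g σ j := by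
  have hσ0 : σ ≠ 0 := hσ.ne_zero (by omega)
  induction k with
  | zero => simp
  | succ k ih =>
    have h := ih (by omega)
    have h1 := gg hσ hn (show k < N by omega)
    rw [show N - k = N - (k + 1) + 1 by omega, prod_range_succ] at h
    rw [prod_range_succ _ k]
    have h2 : N - 1 - k = N - (k + 1) := by omega
    rw [h2] at h1
    have h3 : σ ^ (8 * (k + 1)) = σ ^ (8 * k) * σ ^ 8 := by ring
    rw [h3]
    have h4 : σ ^ 8 ≠ 0 := pow_ne_zero _ hσ0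
    have h5 : g σ (N - (k + 1)) * g σ k * σ ^ 8 = 1 := by rw [h1, inv_mul_cancel₀ h4]
    linear_combination (-(∏ j ∈ range (N - (k + 1)), g σ j)) * h5 + (g σ k * σ ^ 8) * h

theorem g_ne (hσ : IsPrimitiveRoot σ n) (hn : n = 2 * N + 1) {j : ℕ} (hj : j < N) : g σ j ≠ 0 := by
  have hσ0 : σ ≠ 0 := hσ.ne_zero (by omega)
  obtain ⟨h1, h2⟩ := not_dvd hn hj
  have a1 := one_sub_ne' hσ h1
  have a2 := one_sub_ne' hσ h2
  unfold g
  exact mul_ne_zero (inv_ne_zero hσ0) (div_ne_zero (mul_ne_zero a1 (mul_ne_zero a1 a1))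
    (mul_ne_zero a2 (mul_ne_zero a2 a2)))

theorem anti (hσ : IsPrimitiveRoot σ n) (hn : n = 2 * N + 1) (hN : N = 2 * c) (k : ℕ)
    (hk : k ≤ N) : (1 - σ ^ (8 * (N - k) + 2)) * ∏ j ∈ range (N - k), g σ j =
      -((1 - σ ^ (8 * k + 2)) * ∏ j ∈ range k, g σ j) := by
  have hσ0 : σ ≠ 0 := hσ.ne_zero (by omega)
  have h1 := rho hσ hn c (by omega)
  rw [show N - c = c by omega] at h1
  have h2 : ∏ j ∈ range c, g σ j ≠ 0 := by
    rw [prod_ne_zero_iff]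
    intro j hj
    have := mem_range.1 hj
    exact g_ne hσ hn (by omega)
  have h3 : (∏ j ∈ range N, g σ j) * σ ^ (8 * c) = 1 := by
    apply mul_right_cancel₀ h2
    rw [← h1, one_mul]
  have hpow : σ ^ (2 * n) = 1 := by rw [mul_comm, pow_mul, hσ.pow_eq_one, one_pow]
  have h4 : σ ^ (8 * c) * σ ^ 2 = 1 := by
    rw [← pow_add, show 8 * c + 2 = 2 * n by omega, hpow]
  have h5 : ∏ j ∈ range N, g σ j = σ ^ 2 := by
    have h6 : σ ^ (8 * c) ≠ 0 := pow_ne_zero _ hσ0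
    apply mul_right_cancel₀ h6
    rw [h3, mul_comm, h4]
  rw [rho hσ hn k hk, h5]
  have h6 : σ ^ (8 * (N - k) + 2) * σ ^ (8 * k + 2) = 1 := by
    rw [← pow_add, show 8 * (N - k) + 2 + (8 * k + 2) = 2 * n + 2 * n by omega, pow_add, hpow,
      mul_one]
  have h7 : σ ^ 2 * σ ^ (8 * k) = σ ^ (8 * k + 2) := by rw [← pow_add]; congr 1; ring
  linear_combination (1 - σ ^ (8 * (N - k) + 2)) * (∏ j ∈ range k, g σ j) * h7 -
    (∏ j ∈ range k, g σ j) * h6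

end root

/-! ### The local computation, in the variable `s` with `q = s²` -/

section loc

variable {σ : ℂ} {n N c : ℕ}

/-- the variable, for which `s² = q` -/
noncomputable abbrev s : RatFunc ℚ := RatFunc.X

/-- the factors of the terms, with the parameter `y` -/
noncomputable def R (y : RatFunc ℚ) (j : ℕ) : RatFunc ℚ :=
  s⁻¹ * ((1 - s ^ (4 * j + 2)) * ((1 - s ^ (4 * j + 2) * y) * (1 - s ^ (4 * j + 2) * y⁻¹)) /
    ((1 - s ^ (4 * j + 4)) * ((1 - s ^ (4 * j + 4) * y) * (1 - s ^ (4 * j + 4) * y⁻¹))))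

variable (hσ : IsPrimitiveRoot σ n) (hn : n = 2 * N + 1)
include hσ hn

theorem U_one_sub {i : ℕ} (hi : ¬ n ∣ i) : U (Reg σ) (1 - s ^ i) :=
  ⟨one_sub_mem σ i, inv_mem (one_sub_mem σ i) (one_sub_ne hσ hi), ne_zero_of_ev (one_sub_ne hσ hi)⟩

theorem U_s (i : ℕ) : U (Reg σ) (s ^ i) := by
  have hη0 : σ ≠ 0 := hσ.ne_zero (by omega)
  refine ⟨q_pow_mem σ i, ?_, pow_ne_zero _ q_ne⟩
  rw [← inv_pow]; exact qi_mem hη0 i

theorem w_mem : (1 - s ^ n) ∈ I (Reg σ) (Φ n) 1 := by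
  apply mem_I_one (by omega) hσ (one_sub_mem σ _)
  rw [ev_one_sub, hσ.pow_eq_one, sub_self]

theorem y_mem : (1 - s ^ (2 * n)) ∈ I (Reg σ) (Φ n) 1 := by
  apply mem_I_one (by omega) hσ (one_sub_mem σ _)
  rw [ev_one_sub, mul_comm, pow_mul, hσ.pow_eq_one, one_pow, sub_self]

theorem U_one_sub_inv {i : ℕ} (hi : ¬ n ∣ i) : U (Reg σ) (1 - s ^ i * (s ^ (2 * n))⁻¹) := by
  have h1 := (U_s hσ hn i).1
  have h2 := (U_s hσ hn (2 * n)).2.1
  have hm : 1 - s ^ i * (s ^ (2 * n))⁻¹ ∈ Reg σ :=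
    (Reg σ).sub_mem (Reg σ).one_mem ((Reg σ).mul_mem h1 h2)
  have hpow : σ ^ (2 * n) = 1 := by rw [mul_comm, pow_mul, hσ.pow_eq_one, one_pow]
  have hev : ev σ (1 - s ^ i * (s ^ (2 * n))⁻¹) = 1 - σ ^ i := by
    rw [ev_sub (Reg σ).one_mem ((Reg σ).mul_mem h1 h2), ev_mul h1 h2, ev_one, ev_q_pow,
      ev_inv (q_pow_mem σ _) (ev_q_ne (hσ.ne_zero (by omega)) _), ev_q_pow, hpow, inv_one, mul_one]
  have hne : ev σ (1 - s ^ i * (s ^ (2 * n))⁻¹) ≠ 0 := by rw [hev]; exact one_sub_ne' hσ hi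
  exact ⟨hm, inv_mem hm hne, ne_zero_of_ev hne⟩

/-- the pair of factors with `y` -/
theorem cg_pair {i : ℕ} (hi : ¬ n ∣ i) : Cg (Reg σ) (Φ n) 2 ((1 - s ^ i) * (1 - s ^ i))
    ((1 - s ^ i * s ^ (2 * n)) * (1 - s ^ i * (s ^ (2 * n))⁻¹)) := by
  have hi2 : ¬ n ∣ i + 2 * n := by
    intro h; exact hi ((Nat.dvd_add_left (Dvd.intro_left 2 rfl)).1 h)
  have hU := U_one_sub hσ hn hi2
  rw [pow_add] at hU
  refine ⟨(U_one_sub hσ hn hi).mul (U_one_sub hσ hn hi),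
    hU.mul (U_one_sub_inv hσ hn hi), ?_⟩
  have hy := (U_s hσ hn (2 * n)).2.2
  have hy' : s ^ (2 * n) * (s ^ (2 * n))⁻¹ = 1 := mul_inv_cancel₀ hy
  have e : (1 - s ^ i) * (1 - s ^ i) - (1 - s ^ i * s ^ (2 * n)) * (1 - s ^ i * (s ^ (2 * n))⁻¹) =
      (s ^ i * (s ^ (2 * n))⁻¹) * (1 - s ^ (2 * n)) ^ 2 := by
    linear_combination (-(s ^ i) ^ 2 + 2 * s ^ i - s ^ i * s ^ (2 * n)) * hy'
  rw [e]
  refine mul_O ((Reg σ).mul_mem (U_s hσ hn i).1 (U_s hσ hn (2 * n)).2.1) ?_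
  exact pow_I (y_mem hσ hn) 2

theorem cg_R {j : ℕ} (hj : j < N) : Cg (Reg σ) (Φ n) 2 (R 1 j) (R (s ^ (2 * n)) j) := by
  obtain ⟨h1, h2⟩ := not_dvd hn hj
  unfold R
  have hs : U (Reg σ) (s⁻¹) := by
    have := (U_s hσ hn 1).inv
    rwa [pow_one] at this
  refine (Cg.refl hs).mul ?_
  rw [div_eq_mul_inv, div_eq_mul_inv]
  simp only [mul_one, inv_one]
  exact ((Cg.refl (U_one_sub hσ hn h1)).mul (cg_pair hσ hn h1)).mul
    ((Cg.refl (U_one_sub hσ hn h2)).mul (cg_pair hσ hn h2)).inv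

theorem one_sub_q_ne {i : ℕ} (hi : 0 < i) : (1 : RatFunc ℚ) - s ^ i ≠ 0 := by
  intro h
  have h1 : (RatFunc.X : RatFunc ℚ) ^ i = 1 := (sub_eq_zero.1 h).symm
  have h2 : algebraMap ℚ[X] (RatFunc ℚ) (X ^ i) = algebraMap ℚ[X] (RatFunc ℚ) 1 := by
    rw [map_pow, RatFunc.algebraMap_X, h1, map_one]
  have h3 := RatFunc.algebraMap_injective ℚ h2
  have h4 := congrArg Polynomial.natDegree h3
  rw [natDegree_X_pow, natDegree_one] at h4
  omega

/-- the sum at `y = s ^ (2 n)` in closed form -/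
theorem closed : ∑ k ∈ range (N + 1), (1 - s ^ (8 * k + 2)) * ∏ j ∈ range k, R (s ^ (2 * n)) j =
    (∏ j ∈ range (N + 1), (1 - s ^ (4 * j + 2))) *
      ∏ j ∈ range N, ((1 - s ^ (4 * j + 1) * (s ^ (2 * n))⁻¹) /
        ((1 - s ^ (4 * j + 4) * (s ^ (2 * n))⁻¹) * (1 - s ^ (4 * j + 3)))) := by
  have hs0 : s ≠ 0 := q_ne
  have h := Q278.SixPhi.sum (s ^ 4) N (s ^ 2) ((s ^ (2 * n + 2))⁻¹) ((s ^ 3)⁻¹)
    (fun j hj => by rw [← pow_mul]; exact one_sub_q_ne hσ hn (by omega))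
    (fun j hj => by
      rw [← pow_mul, ← pow_add]; exact one_sub_q_ne hσ hn (by omega))
    (fun j hj => by
      have h1 : s ^ 2 * (s ^ 4) ^ (j + 1) * (s ^ (2 * n + 2))⁻¹ =
          s ^ (4 * j + 4) * (s ^ (2 * n))⁻¹ := by
        rw [pow_add s (2 * n) 2]; field_simp; ring
      rw [h1]
      exact (U_one_sub_inv hσ hn (not_dvd hn hj).2).2.2)
    (fun j hj => by
      have h1 : s ^ 2 * (s ^ 4) ^ (j + 1) * (s ^ 3)⁻¹ = s ^ (4 * j + 3) := by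
        field_simp; ring
      rw [h1]
      exact one_sub_q_ne hσ hn (by omega))
  have hr : ∀ j, Q278.SixPhi.r (s ^ 4) (s ^ 2) ((s ^ (2 * n + 2))⁻¹) ((s ^ 3)⁻¹) N j =
      if j < N then R (s ^ (2 * n)) j else
        Q278.SixPhi.r (s ^ 4) (s ^ 2) ((s ^ (2 * n + 2))⁻¹) ((s ^ 3)⁻¹) N j := by
    intro j
    split_ifs with hj
    · unfold Q278.SixPhi.r R
      have e1 : s ^ 2 * (s ^ 4) ^ j = s ^ (4 * j + 2) := by ring
      have e2 : (s ^ 4) ^ N - (s ^ 4) ^ j = (s ^ (2 * n) * (s ^ 2)⁻¹) *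
          (1 - s ^ (4 * j + 2) * (s ^ (2 * n))⁻¹) := by
        have h1 : (s ^ 4) ^ N * s ^ 2 = s ^ (2 * n) := by
          rw [← pow_mul, ← pow_add]; congr 1; omega
        rw [← h1]; field_simp; ring
      have e3 : (s ^ (2 * n + 2))⁻¹ - (s ^ 4) ^ j = ((s ^ (2 * n))⁻¹ * (s ^ 2)⁻¹) *
          (1 - s ^ (4 * j + 2) * s ^ (2 * n)) := by
        rw [pow_add s (2 * n) 2]; field_simp; ring
      have e4 : (s ^ 3)⁻¹ - (s ^ 4) ^ j = (s ^ 3)⁻¹ * (1 - s ^ (4 * j + 3)) := by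
        field_simp; ring
      have e5 : (s ^ 4) ^ (j + 1) = s ^ (4 * j + 4) := by ring
      have e6 : s ^ 2 * (s ^ 4) ^ (N + 1 + j) = s ^ (4 * j + 4) * s ^ (2 * n) := by
        rw [← pow_mul, ← pow_add, ← pow_add]; congr 1; omega
      have e7 : s ^ 2 * (s ^ 4) ^ (j + 1) * (s ^ (2 * n + 2))⁻¹ =
          s ^ (4 * j + 4) * (s ^ (2 * n))⁻¹ := by
        rw [pow_add s (2 * n) 2]; field_simp; ring
      have e8 : s ^ 2 * (s ^ 4) ^ (j + 1) * (s ^ 3)⁻¹ = s ^ (4 * j + 3) := by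
        field_simp; ring
      rw [e1, e2, e3, e4, e6, e7, e8, e5]
      have d1 : 1 - s ^ (4 * j + 3) ≠ 0 := one_sub_q_ne hσ hn (by omega)
      have d2 : s ^ (2 * n) ≠ 0 := pow_ne_zero _ hs0
      generalize 1 - s ^ (4 * j + 3) = u1 at *
      generalize 1 - s ^ (4 * j + 4) = u2 at *
      generalize 1 - s ^ (4 * j + 4) * s ^ (2 * n) = u3 at *
      generalize 1 - s ^ (4 * j + 4) * (s ^ (2 * n))⁻¹ = u4 at *
      generalize 1 - s ^ (4 * j + 2) = v2 at *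
      generalize 1 - s ^ (4 * j + 2) * s ^ (2 * n) = v3 at *
      generalize 1 - s ^ (4 * j + 2) * (s ^ (2 * n))⁻¹ = v4 at *
      generalize s ^ (2 * n) = y at *
      field_simp
    · rfl
  have e1 : ∑ k ∈ range (N + 1), (1 - s ^ (8 * k + 2)) * ∏ j ∈ range k, R (s ^ (2 * n)) j =
      ∑ k ∈ range (N + 1), (1 - s ^ 2 * (s ^ 4) ^ (2 * k)) * ∏ j ∈ range k,
        Q278.SixPhi.r (s ^ 4) (s ^ 2) ((s ^ (2 * n + 2))⁻¹) ((s ^ 3)⁻¹) N j := by
    apply sum_congr rfl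
    intro k hk
    have := mem_range.1 hk
    congr 1
    · ring
    · apply prod_congr rfl
      intro j hj
      have := mem_range.1 hj
      rw [hr j, if_pos (by omega)]
  rw [e1, h]
  congr 1
  · exact prod_congr rfl (fun j _ => by ring)
  · apply prod_congr rfl
    intro j _
    have e7 : s ^ 2 * (s ^ 4) ^ (j + 1) * (s ^ (2 * n + 2))⁻¹ =
        s ^ (4 * j + 4) * (s ^ (2 * n))⁻¹ := by
      rw [pow_add s (2 * n) 2]; field_simp; ring
    have e8 : s ^ 2 * (s ^ 4) ^ (j + 1) * (s ^ 3)⁻¹ = s ^ (4 * j + 3) := by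
      field_simp; ring
    have e9 : s ^ (4 * j + 4) * (s ^ (2 * n))⁻¹ * (s ^ 3)⁻¹ =
        s ^ (4 * j + 1) * (s ^ (2 * n))⁻¹ := by
      field_simp; ring
    rw [e7, e8, e9]

/-- the sum at `y = s ^ (2 n)` is divisible by `Φ²` -/
theorem closed_mem (hN : N = 2 * c) (hc : 0 < c) :
    ∑ k ∈ range (N + 1), (1 - s ^ (8 * k + 2)) * ∏ j ∈ range k, R (s ^ (2 * n)) j ∈
      I (Reg σ) (Φ n) 2 := by
  rw [closed hσ hn]
  have h1 : ∏ j ∈ range (N + 1), (1 - s ^ (4 * j + 2)) ∈ I (Reg σ) (Φ n) 1 := by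
    rw [prod_range_succ]
    refine mul_O ((Reg σ).prod_mem (fun j _ => one_sub_mem σ _)) ?_
    rw [show 4 * N + 2 = 2 * n by omega]
    exact y_mem hσ hn
  have hf : ∀ j ∈ range N, ((1 - s ^ (4 * j + 1) * (s ^ (2 * n))⁻¹) /
        ((1 - s ^ (4 * j + 4) * (s ^ (2 * n))⁻¹) * (1 - s ^ (4 * j + 3)))) =
        (1 - s ^ (4 * j + 1) * (s ^ (2 * n))⁻¹) *
        ((1 - s ^ (4 * j + 4) * (s ^ (2 * n))⁻¹) * (1 - s ^ (4 * j + 3)))⁻¹ :=
    fun j _ => div_eq_mul_inv _ _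
  have hden : ∀ j, j < N →
      ((1 - s ^ (4 * j + 4) * (s ^ (2 * n))⁻¹) * (1 - s ^ (4 * j + 3)))⁻¹ ∈ Reg σ := by
    intro j hj
    obtain ⟨_, h2⟩ := not_dvd hn hj
    have h3 : ¬ n ∣ 4 * j + 3 := by
      rintro ⟨t, ht⟩
      have ht2 : t < 2 := by
        by_contra h
        have : n * 2 ≤ n * t := Nat.mul_le_mul_left n (by omega)
        omega
      interval_cases t <;> omega
    exact ((U_one_sub_inv hσ hn h2).mul (U_one_sub hσ hn h3)).2.1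
  have hnum : ∀ j, (1 - s ^ (4 * j + 1) * (s ^ (2 * n))⁻¹) ∈ Reg σ := fun j =>
    (Reg σ).sub_mem (Reg σ).one_mem ((Reg σ).mul_mem (U_s hσ hn _).1 (U_s hσ hn _).2.1)
  have h2 : ∏ j ∈ range N, ((1 - s ^ (4 * j + 1) * (s ^ (2 * n))⁻¹) /
        ((1 - s ^ (4 * j + 4) * (s ^ (2 * n))⁻¹) * (1 - s ^ (4 * j + 3)))) ∈
        I (Reg σ) (Φ n) 1 := by
    rw [prod_congr rfl hf, ← mul_prod_erase (range N) _ (mem_range.2 (show c < N by omega)),
      mul_comm]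
    refine mul_O ((Reg σ).prod_mem (fun j hj => (Reg σ).mul_mem (hnum j)
      (hden j (mem_range.1 (mem_of_mem_erase hj))))) ?_
    rw [mul_comm]
    refine mul_O (hden c (by omega)) ?_
    have e : 1 - s ^ (4 * c + 1) * (s ^ (2 * n))⁻¹ = (-(s ^ n)⁻¹) * (1 - s ^ n) := by
      have hs : s ^ n ≠ 0 := pow_ne_zero _ q_ne
      rw [show 4 * c + 1 = n by omega, show 2 * n = n + n by ring, pow_add]
      field_simp
      ring
    rw [e]
    exact mul_O ((Reg σ).neg_mem (U_s hσ hn n).2.1) (w_mem hσ hn)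
  exact mul_I h1 h2

theorem T_mem (hN : N = 2 * c) (hc : 0 < c) :
    ∑ k ∈ range (N + 1), (1 - s ^ (8 * k + 2)) * ∏ j ∈ range k, R 1 j ∈ I (Reg σ) (Φ n) 2 := by
  have h1 := closed_mem hσ hn hN hc
  have h2 : ∑ k ∈ range (N + 1), (1 - s ^ (8 * k + 2)) *
      (∏ j ∈ range k, R 1 j - ∏ j ∈ range k, R (s ^ (2 * n)) j) ∈ I (Reg σ) (Φ n) 2 := by
    refine AddSubgroup.sum_mem _ (fun k hk => mul_O (one_sub_mem σ _) ?_)
    have hk' := mem_range.1 hk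
    exact (Cg.prod (fun j hj => cg_R hσ hn (show j < N by have := mem_range.1 hj; omega))).2.2
  have e : ∑ k ∈ range (N + 1), (1 - s ^ (8 * k + 2)) * ∏ j ∈ range k, R 1 j =
      ∑ k ∈ range (N + 1), (1 - s ^ (8 * k + 2)) *
        (∏ j ∈ range k, R 1 j - ∏ j ∈ range k, R (s ^ (2 * n)) j) +
      ∑ k ∈ range (N + 1), (1 - s ^ (8 * k + 2)) * ∏ j ∈ range k, R (s ^ (2 * n)) j := by
    rw [← sum_add_distrib]
    exact sum_congr rfl (fun k _ => by ring)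
  rw [e]
  exact (I (Reg σ) (Φ n) 2).add_mem h2 h1

theorem R_one_mem {j : ℕ} (hj : j < N) : R 1 j ∈ Reg σ := (cg_R hσ hn hj).1.1

theorem ev_R {j : ℕ} (hj : j < N) : ev σ (R 1 j) = g σ j := by
  obtain ⟨h1, h2⟩ := not_dvd hn hj
  have m1 := (U_one_sub hσ hn h1).1
  have m2 := (U_one_sub hσ hn h2).1
  have hne := one_sub_ne hσ h2
  have hη0 : σ ≠ 0 := hσ.ne_zero (by omega)
  have hs : s⁻¹ ∈ Reg σ := by
    have := (U_s hσ hn 1).2.1
    rwa [pow_one] at this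
  have hsv : ev σ (s⁻¹) = σ⁻¹ := by
    have := ev_qi hη0 1
    rwa [pow_one, pow_one] at this
  unfold R g
  simp only [mul_one, inv_one]
  have hd : ev σ ((1 - s ^ (4 * j + 4)) * ((1 - s ^ (4 * j + 4)) * (1 - s ^ (4 * j + 4)))) ≠ 0 := by
    rw [ev_mul m2 ((Reg σ).mul_mem m2 m2), ev_mul m2 m2]
    exact mul_ne_zero hne (mul_ne_zero hne hne)
  have m3 := (Reg σ).mul_mem m2 ((Reg σ).mul_mem m2 m2)
  have m4 := (Reg σ).mul_mem m1 ((Reg σ).mul_mem m1 m1)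
  have m5 : ((1 - s ^ (4 * j + 2)) * ((1 - s ^ (4 * j + 2)) * (1 - s ^ (4 * j + 2))) /
    ((1 - s ^ (4 * j + 4)) * ((1 - s ^ (4 * j + 4)) * (1 - s ^ (4 * j + 4))))) ∈ Reg σ := by
    rw [div_eq_mul_inv]
    exact (Reg σ).mul_mem m4 (inv_mem m3 hd)
  rw [ev_mul hs m5, ev_div m4 m3 hd, hsv, ev_mul m1 ((Reg σ).mul_mem m1 m1), ev_mul m1 m1,
    ev_mul m2 ((Reg σ).mul_mem m2 m2), ev_mul m2 m2, ev_one_sub, ev_one_sub]

/-- the weighted sum is divisible by `Φ` -/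
theorem weighted (hN : N = 2 * c) : ∑ k ∈ range (N + 1), ((k * (N - k) : ℕ) : RatFunc ℚ) *
    ((1 - s ^ (8 * k + 2)) * ∏ j ∈ range k, R 1 j) ∈ I (Reg σ) (Φ n) 1 := by
  have hm : ∀ k ∈ range (N + 1), ∏ j ∈ range k, R 1 j ∈ Reg σ := by
    intro k hk
    have := mem_range.1 hk
    exact (Reg σ).prod_mem (fun j hj => R_one_mem hσ hn (by have := mem_range.1 hj; omega))
  have hm2 : ∀ k ∈ range (N + 1), ((k * (N - k) : ℕ) : RatFunc ℚ) *
      ((1 - s ^ (8 * k + 2)) * ∏ j ∈ range k, R 1 j) ∈ Reg σ := fun k hk =>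
    (Reg σ).mul_mem (nat_O _) ((Reg σ).mul_mem (one_sub_mem σ _) (hm k hk))
  apply mem_I_one (by omega) hσ ((Reg σ).sum_mem hm2)
  rw [ev_sum hm2]
  have e : ∀ k ∈ range (N + 1), ev σ (((k * (N - k) : ℕ) : RatFunc ℚ) *
      ((1 - s ^ (8 * k + 2)) * ∏ j ∈ range k, R 1 j)) = ((k * (N - k) : ℕ) : ℂ) *
        ((1 - σ ^ (8 * k + 2)) * ∏ j ∈ range k, g σ j) := by
    intro k hk
    have := mem_range.1 hk
    rw [ev_mul (nat_O _) ((Reg σ).mul_mem (one_sub_mem σ _) (hm k hk)),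
      ev_mul (one_sub_mem σ _) (hm k hk), ev_nat, ev_one_sub, ev_prod (fun j hj =>
        R_one_mem hσ hn (by have := mem_range.1 hj; omega))]
    congr 2
    exact prod_congr rfl (fun j hj => ev_R hσ hn (by have := mem_range.1 hj; omega))
  rw [sum_congr rfl e]
  set f : ℕ → ℂ := fun k => ((k * (N - k) : ℕ) : ℂ) *
        ((1 - σ ^ (8 * k + 2)) * ∏ j ∈ range k, g σ j) with hf
  have h1 : ∑ k ∈ range (N + 1), f k = ∑ k ∈ range (N + 1), -f k := by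
    rw [← sum_range_reflect]
    apply sum_congr rfl
    intro k hk
    have hk' := mem_range.1 hk
    rw [show N + 1 - 1 - k = N - k by omega]
    simp only [hf]
    rw [anti hσ hn hN k (by omega), show N - (N - k) = k by omega, mul_comm (N - k) k]
    ring
  rw [sum_neg_distrib] at h1
  have h2 : (2 : ℂ) * ∑ k ∈ range (N + 1), f k = 0 := by linear_combination h1
  rcases mul_eq_zero.1 h2 with h3 | h3
  · norm_num at h3
  · exact h3

omit hσ hn in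
theorem pow_expand {O : Subring (RatFunc ℚ)} {π w : RatFunc ℚ} (hw : w ∈ O)
    (h1 : 1 - w ∈ I O π 1) (m : ℕ) : w ^ m - 1 + m * (1 - w) ∈ I O π 2 := by
  induction m with
  | zero => simp
  | succ m ih =>
    have e : w ^ (m + 1) - 1 + ((m + 1 : ℕ) : RatFunc ℚ) * (1 - w) =
        w * (w ^ m - 1 + m * (1 - w)) + m * (1 - w) ^ 2 := by
      push_cast; ring
    rw [e]
    exact (I O π 2).add_mem (mul_O hw ih) (mul_O (nat_O m) (pow_I h1 2))

theorem local_main (hN : N = 2 * c) (hc : 0 < c) :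
    ∑ k ∈ range (N + 1), (1 - s ^ (8 * k + 2)) * (∏ j ∈ range k, R 1 j) *
      (s ^ n) ^ (k * (N - k)) ∈ I (Reg σ) (Φ n) 2 := by
  have h1 := T_mem hσ hn hN hc
  have h2 := weighted hσ hn hN
  have h3 := mul_I (w_mem hσ hn) h2
  have hm : ∀ k ∈ range (N + 1), ∏ j ∈ range k, R 1 j ∈ Reg σ := by
    intro k hk
    have := mem_range.1 hk
    exact (Reg σ).prod_mem (fun j hj => R_one_mem hσ hn (by have := mem_range.1 hj; omega))
  have h4 : ∑ k ∈ range (N + 1), ((1 - s ^ (8 * k + 2)) * (∏ j ∈ range k, R 1 j)) *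
      ((s ^ n) ^ (k * (N - k)) - 1 + ((k * (N - k) : ℕ) : RatFunc ℚ) * (1 - s ^ n)) ∈
        I (Reg σ) (Φ n) 2 :=
    AddSubgroup.sum_mem _ (fun k hk => mul_O ((Reg σ).mul_mem (one_sub_mem σ _) (hm k hk))
      (pow_expand (U_s hσ hn n).1 (w_mem hσ hn) _))
  have e : ∑ k ∈ range (N + 1), (1 - s ^ (8 * k + 2)) * (∏ j ∈ range k, R 1 j) *
      (s ^ n) ^ (k * (N - k)) = ∑ k ∈ range (N + 1), (1 - s ^ (8 * k + 2)) * ∏ j ∈ range k, R 1 j +
      ∑ k ∈ range (N + 1), ((1 - s ^ (8 * k + 2)) * (∏ j ∈ range k, R 1 j)) *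
      ((s ^ n) ^ (k * (N - k)) - 1 + ((k * (N - k) : ℕ) : RatFunc ℚ) * (1 - s ^ n)) -
      (1 - s ^ n) * ∑ k ∈ range (N + 1), ((k * (N - k) : ℕ) : RatFunc ℚ) *
    ((1 - s ^ (8 * k + 2)) * ∏ j ∈ range k, R 1 j) := by
    rw [mul_sum, ← sum_add_distrib, ← sum_sub_distrib]
    exact sum_congr rfl (fun k _ => by ring)
  rw [e]
  exact (I (Reg σ) (Φ n) 2).sub_mem ((I (Reg σ) (Φ n) 2).add_mem h1 h4) h3

end loc

/-! ### The sum in the variable `q` -/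

/-- the substitution `q = s²` -/
noncomputable abbrev φ : RatFunc ℚ →+* RatFunc ℚ := Q278.Sub.sb 2 two_pos

theorem sb_qint (m : ℕ) : (1 - q ^ 2) * φ (qint m) = 1 - q ^ (2 * m) := by
  unfold qint
  rw [map_sum]
  have h1 : ∀ i ∈ range m, φ (RatFunc.X ^ i) = (q ^ 2) ^ i := by
    intro i _
    rw [map_pow, Q278.Sub.sb_X]
  rw [sum_congr rfl h1]
  have h2 := geom_sum_mul (q ^ 2) m
  rw [pow_mul]
  linear_combination -h2

theorem exp_eq {n N c k : ℕ} (hn : n = 2 * N + 1) (hN : N = 2 * c) (hk : k ≤ N) :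
    2 * e n k = n * ((k * (N - k) : ℕ) : ℤ) - k := by
  have hpar : (2 : ℤ) ∣ k * (n * k + 1) := by
    rcases Nat.even_or_odd k with ⟨t, ht⟩ | ⟨t, ht⟩
    · exact ⟨t * (n * k + 1), by push_cast [ht]; ring⟩
    · exact ⟨k * (n * t + N + 1), by push_cast [ht, hn]; ring⟩
  obtain ⟨t, ht⟩ := hpar
  have h4 : ((k : ℤ) * (n ^ 2 - 2 * n * k - n - 2)) = 4 * (n * c * k - t) := by
    have hn' : (n : ℤ) = 4 * c + 1 := by push_cast [hn, hN]; ring
    linear_combination (n * k : ℤ) * hn' - 2 * ht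
  unfold e
  rw [h4, Int.mul_ediv_cancel_left _ (by norm_num)]
  rw [Nat.cast_mul, Nat.cast_sub hk]
  have hN' : (N : ℤ) = 2 * c := by exact_mod_cast hN
  rw [hN']
  linear_combination ht

theorem sb_S {n N c : ℕ} {σ : ℂ} (hσ : IsPrimitiveRoot σ n) (hn : n = 2 * N + 1) (hN : N = 2 * c) :
    (1 - q ^ 2) * φ (S n) = ∑ k ∈ range (N + 1), (1 - q ^ (8 * k + 2)) *
      (∏ j ∈ range k, R 1 j) * (q ^ n) ^ (k * (N - k)) := by
  unfold S
  rw [show (n - 1) / 2 = N by omega, map_sum, mul_sum]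
  apply sum_congr rfl
  intro k hk
  have hk' := mem_range.1 hk
  rw [map_mul, map_mul, map_pow, map_div₀, map_zpow₀, Q278.Sub.sb_X]
  have h1 := sb_qint (4 * k + 1)
  have h2 : (q ^ 2) ^ (e n k) = (q⁻¹) ^ k * (q ^ n) ^ (k * (N - k)) := by
    have h3 := exp_eq hn hN (show k ≤ N by omega)
    have h4 : (q ^ 2) ^ (e n k) = q ^ (2 * e n k) := by
      rw [zpow_mul]; rfl
    rw [h4, h3, ← pow_mul, inv_pow, sub_eq_add_neg, zpow_add₀ q_ne, zpow_neg, zpow_natCast,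
      mul_comm]
    rw [← zpow_natCast q (n * (k * (N - k))), Nat.cast_mul n]
  have h5 : (φ (P RatFunc.X (RatFunc.X ^ 2) k) / φ (P (RatFunc.X ^ 2) (RatFunc.X ^ 2) k)) ^ 3 *
      (q⁻¹) ^ k = ∏ j ∈ range k, R 1 j := by
    unfold P R
    rw [map_prod, map_prod, ← prod_div_distrib, ← prod_pow, ← card_range k, ← prod_const,
      card_range, ← prod_mul_distrib]
    apply prod_congr rfl
    intro j _
    simp only [map_sub, map_one, map_mul, map_pow, Q278.Sub.sb_X]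
    rw [show q ^ 2 * ((q ^ 2) ^ 2) ^ j = q ^ (4 * j + 2) by ring,
      show (q ^ 2) ^ 2 * ((q ^ 2) ^ 2) ^ j = q ^ (4 * j + 4) by ring]
    simp only [mul_one, inv_one]
    rw [div_pow]
    generalize 1 - q ^ (4 * j + 4) = u
    generalize 1 - q ^ (4 * j + 2) = v
    rw [mul_comm]
    congr 2 <;> ring
  rw [h2, ← h5]
  have h6 : 8 * k + 2 = 2 * (4 * k + 1) := by ring
  rw [h6, ← h1]
  ring

theorem result : ∀ n : ℕ, n % 4 = 1 → ((cyclotomic n ℚ ^ 2 ∣ RatFunc.num (S n) ∧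
    IsCoprime (RatFunc.denom (S n)) (cyclotomic n ℚ ^ 2)) ↔ 1 < n) := by
  intro n hn4
  constructor
  · rintro ⟨h1, _⟩
    by_contra hlt
    have h1n : n = 1 := by omega
    subst h1n
    have hS : S 1 = 1 := by
      unfold S
      simp [qint, P, e]
    rw [hS, RatFunc.num_one, cyclotomic_one] at h1
    have h2 := natDegree_le_of_dvd h1 one_ne_zero
    rw [natDegree_pow, natDegree_one, show (X - 1 : ℚ[X]) = X - C 1 by simp,
      natDegree_X_sub_C] at h2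
    omega
  · intro hn1
    obtain ⟨c, hc⟩ : ∃ c, n = 4 * c + 1 := ⟨n / 4, by omega⟩
    have hσ := Complex.isPrimitiveRoot_exp n (by omega : n ≠ 0)
    set σ := Complex.exp (2 * Real.pi * Complex.I / n) with hσd
    have hn : n = 2 * (2 * c) + 1 := by omega
    have hc0 : 0 < c := by omega
    have h1 := local_main hσ hn rfl hc0
    rw [← sb_S hσ hn rfl] at h1
    have h2n : ¬ n ∣ 2 := by
      intro h; have := Nat.le_of_dvd (by norm_num) h; omega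
    have hU := U_one_sub hσ hn h2n
    have h2 := of_unit_mul hU.2.2 hU.2.1 h1
    have h3 := Q278.Sub.mem_I_of_sb (by omega) Nat.prime_two (by omega) hσ 2 h2
    have hσ2 : IsPrimitiveRoot (σ ^ 2) n := hσ.pow_of_coprime 2 (by
      rw [Nat.coprime_two_left]; exact ⟨2 * c, by omega⟩)
    obtain ⟨h4, h5⟩ := num_dvd (by omega) hσ2 h3
    exact ⟨h4, h5.pow_right⟩

end Pool.Agent.Results.MP_b125a4_nt.Full
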